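import Mathlib
import Pool.Agent.helper68.AM.Spec
import Pool.Agent.helper68.AM.Tree

/-!
Project sl: (AM), module RSA: the leaves resonant with one direction have total weight `≤ C / j`.
-/

set_option autoImplicit false

namespace AM

open Pool.Agent.helper72.Sq Finset

/-- the first coordinate is negative -/
lemma RSA_al {c c' k t0 : ℝ} {x : Nd} (hx : GN c c' k t0 x) {d1 d2 : ℤ} (h1 : d1 < 0)
    (h2 : 0 < d2) : x.al d1 d2 ≤ -1 := by
  have hm := hx.m2_pos
  unfold Nd.m2 at hm
  unfold Nd.al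
  have a1 : (0 : ℤ) ≤ x.w1 := Int.natCast_nonneg _
  have a2 : (0 : ℤ) ≤ x.w2 := Int.natCast_nonneg _
  have a3 : (1 : ℤ) ≤ (x.w1 : ℤ) + x.w2 := by exact_mod_cast hm
  nlinarith [mul_nonneg (by linarith : (0 : ℤ) ≤ -d1 - 1) a2,
    mul_nonneg (by linarith : (0 : ℤ) ≤ d2 - 1) a1]

/-- the second coordinate is positive -/
lemma RSA_be {c c' k t0 : ℝ} {x : Nd} (hx : GN c c' k t0 x) {d1 d2 : ℤ} (h1 : d1 < 0)
    (h2 : 0 < d2) : 1 ≤ x.be d1 d2 := by
  have hm := hx.m1_pos
  unfold Nd.m1 at hm
  unfold Nd.be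
  have a1 : (0 : ℤ) ≤ x.v1 := Int.natCast_nonneg _
  have a2 : (0 : ℤ) ≤ x.v2 := Int.natCast_nonneg _
  have a3 : (1 : ℤ) ≤ (x.v1 : ℤ) + x.v2 := by exact_mod_cast hm
  nlinarith [mul_nonneg (by linarith : (0 : ℤ) ≤ -d1 - 1) a2,
    mul_nonneg (by linarith : (0 : ℤ) ≤ d2 - 1) a1]

/-- the corner gap -/
lemma RSA_gap (hGE : GE_stmt) {c c' k t0 : ℝ} {x : Nd} (hx : GN c c' k t0 x) {d1 d2 : ℤ}
    (h1 : d1 < 0) (h2 : 0 < d2) :
    2 * Real.exp (-x.lz) ≤ x.R.I d1 d2 - x.L.S d1 d2 := by
  obtain ⟨-, -, -, -, -, -, h⟩ := hGE x.t hx.gr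
  have ha := RSA_al hx h1 h2
  have hb := RSA_be hx h1 h2
  have e : x.R.I d1 d2 - x.L.S d1 d2 =
      ((x.be d1 d2 : ℝ) - x.al d1 d2) * (E2 (Lm x.t) + E1 (Rm x.t) - x.lz) := by
    have e1 : x.R.I d1 d2 = x.al d1 d2 * x.lz + (x.be d1 d2 - x.al d1 d2) * E1 (Rm x.t) := by
      unfold Nd.I
      rw [al_R, be_R]
      push_cast
      rfl
    have e2 : x.L.S d1 d2 = (x.al d1 d2 - x.be d1 d2) * E2 (Lm x.t) + x.be d1 d2 * x.lz := by
      unfold Nd.S
      rw [al_L, be_L]
      push_cast
      rfl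
    rw [e1, e2]
    ring
  rw [e]
  have ha' : (x.al d1 d2 : ℝ) ≤ -1 := by exact_mod_cast ha
  have hb' : (1 : ℝ) ≤ x.be d1 d2 := by exact_mod_cast hb
  have h3 : Real.exp (-x.lz) ≤ E2 (Lm x.t) + E1 (Rm x.t) - x.lz := h
  have h4 : 0 < Real.exp (-x.lz) := Real.exp_pos _
  have h5 : (2 : ℝ) ≤ (x.be d1 d2 : ℝ) - x.al d1 d2 := by linarith
  exact mul_le_mul h5 h3 h4.le (by linarith)

/-- the weight of a node -/
lemma RSA_w {c c' k t0 : ℝ} {x : Nd} (hx : GN c c' k t0 x) :
    1 / ((x.m1 : ℝ) * x.m2) ≤ 2 / ((x.m1 : ℝ) + x.m2) := by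
  have b1 : (1 : ℝ) ≤ x.m1 := by exact_mod_cast hx.m1_pos
  have b2 : (1 : ℝ) ≤ x.m2 := by exact_mod_cast hx.m2_pos
  rw [div_le_div_iff₀ (by positivity) (by positivity)]
  nlinarith [mul_nonneg (by linarith : (0 : ℝ) ≤ (x.m1 : ℝ) - 1)
    (by linarith : (0 : ℝ) ≤ (x.m2 : ℝ) - 1)]

theorem RSA (hGE : GE_stmt) (hMN : MN_stmt) : RSA_stmt := by
  classical
  intro c c' k t0 hP κ hκ
  have hc' : 0 < c' := lt_of_lt_of_le hP.c0 hP.cc
  refine ⟨2 * c' / κ + 2, by positivity, ?_⟩
  intro j M n x d1 d2 hj hjM hx hM h1 h2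
  have hj' : (1 : ℝ) ≤ j := by exact_mod_cast hj
  have hj0 : (0 : ℝ) < j := by linarith
  have hjM' : (j : ℝ) ≤ M := by exact_mod_cast hjM
  set C : ℝ := 2 * c' / κ + 2 with hC
  have hC2 : 2 ≤ C := by
    have : 0 < 2 * c' / κ := by positivity
    linarith
  have hC0 : 0 < C := by linarith
  set f : Nd → ℝ := fun y => if |y.La d1 d2| ≤ Real.exp (-(κ * j)) then
    1 / ((y.m1 : ℝ) * y.m2) else 0 with hf
  have hf0 : ∀ y : Nd, 0 ≤ f y := by
    intro y
    simp only [hf]
    split_ifs
    · positivity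
    · exact le_rfl
  have hfw : ∀ y : Nd, f y ≤ 1 / ((y.m1 : ℝ) * y.m2) := by
    intro y
    simp only [hf]
    split_ifs
    · exact le_rfl
    · positivity
  -- a node which is a leaf
  have hleaf : ∀ y : Nd, GN c c' k t0 y → M ≤ y.m1 + y.m2 → f y ≤ C / j := by
    intro y hy hMy
    refine (hfw y).trans ((RSA_w hy).trans ?_)
    have h3 : (M : ℝ) ≤ (y.m1 : ℝ) + y.m2 := by exact_mod_cast hMy
    calc 2 / ((y.m1 : ℝ) + y.m2) ≤ 2 / j :=
          div_le_div_of_nonneg_left (by norm_num) hj0 (by linarith)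
      _ ≤ C / j := by gcongr
  have key : ∀ (n : ℕ) (x : Nd), GN c c' k t0 x → M ≤ x.m1 + x.m2 + n →
      lsum M n x f ≤ C / j := by
    intro n
    induction n with
    | zero =>
      intro x hx hM
      rw [lsum_zero]
      exact hleaf x hx (by omega)
    | succ n ih =>
      intro x hx hM
      by_cases hbig : κ * j ≤ c' * ((x.m1 : ℝ) + x.m2)
      · -- large node
        have b1 : (1 : ℝ) ≤ x.m1 := by exact_mod_cast hx.m1_pos
        have b2 : (1 : ℝ) ≤ x.m2 := by exact_mod_cast hx.m2_pos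
        have h3 : lsum M (n + 1) x f ≤ 1 / ((x.m1 : ℝ) * x.m2) := by
          rw [← lsum_weight M (n + 1) x hx]
          exact lsum_le _ _ _ _ _ fun y _ => hfw y
        refine h3.trans ((RSA_w hx).trans ?_)
        have h4 : 2 / ((x.m1 : ℝ) + x.m2) ≤ (2 * c' / κ) / j := by
          rw [div_div, div_le_div_iff₀ (by positivity) (by positivity)]
          nlinarith
        refine h4.trans ?_
        have h5 : 2 * c' / κ ≤ C := by linarith
        gcongr
      · push Not at hbig
        rw [lsum_succ]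
        split_ifs with hMx
        · exact hleaf x hx hMx
        · have p1 := hx.m1_pos
          have p2 := hx.m2_pos
          have iL := ih x.L hx.L (by rw [L_m1, L_m2]; omega)
          have iR := ih x.R hx.R (by rw [R_m1, R_m2]; omega)
          -- resonant leaves on one side only
          by_cases hL : ∃ y ∈ lvs M n x.L, |y.La d1 d2| ≤ Real.exp (-(κ * j))
          · by_cases hR : ∃ y ∈ lvs M n x.R, |y.La d1 d2| ≤ Real.exp (-(κ * j))
            · exfalso
              obtain ⟨y, hy, hy1⟩ := hL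
              obtain ⟨y', hy', hy1'⟩ := hR
              have haL := RSA_al hx.L h1 h2
              have hbL := RSA_be hx.L h1 h2
              have haR := RSA_al hx.R h1 h2
              have hbR := RSA_be hx.R h1 h2
              obtain ⟨-, -, a3, a4, -, -⟩ := hMN c c' k t0 hP M n x.L hx.L y hy d1 d2
                (by linarith) (by linarith)
              obtain ⟨b1, b2, -, -, -, -⟩ := hMN c c' k t0 hP M n x.R hx.R y' hy' d1 d2
                (by linarith) (by linarith)
              have hgap := RSA_gap hGE hx h1 h2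
              have hy2 := (abs_le.mp hy1).1
              have hy3 := (abs_le.mp hy1').2
              have hexp : Real.exp (-x.lz) ≤ Real.exp (-(κ * j)) := by linarith
              rw [Real.exp_le_exp] at hexp
              have hz : x.lz ≤ x.l1 + x.l2 := hx.gr.len_z_le
              have hl1 := hx.l1_le
              have hl2 := hx.l2_le
              linarith
            · push Not at hR
              have h0 : lsum M n x.R f ≤ 0 := by
                refine (lsum_le M n x.R f (fun _ => 0) fun y hy => ?_).trans ?_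
                · simp only [hf]
                  rw [if_neg (not_le.mpr (hR y hy))]
                · unfold lsum; simp
              linarith
          · push Not at hL
            have h0 : lsum M n x.L f ≤ 0 := by
              refine (lsum_le M n x.L f (fun _ => 0) fun y hy => ?_).trans ?_
              · simp only [hf]
                rw [if_neg (not_le.mpr (hL y hy))]
              · unfold lsum; simp
            linarith
  have := key n x hx hM
  convert this using 2

end AM
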